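import Pool.Agent.H896.SE.Sub

/-!
# Stark's conjecture for exponent two: a prime ideal above two which is not fully ramified (helper896)
-/

set_option autoImplicit false
set_option linter.unusedSectionVars false
set_option linter.deprecated false

open NumberField IsDedekindDomain Filter Topology Module

noncomputable section

namespace Pool.Agent.H896.SE

open Pool.Agent.BT9
open Pool.Agent.Q92.AR (prin up Unramified)
open Pool.Agent.K3h30.RS
open Pool.Agent.K3h73.E2 (Below exists_below below_of_conj)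
open Pool.Agent.N598.ST (Unram Data Stark TotallySplit)
open Pool.Agent.STk (CG toCG toCG_smul SigmaG card_sg two_finite sum_deg_le split_or)
open Pool.Agent.H509.E3 (fixes_conj)

variable {K H : Type} [Field K] [NumberField K] [Field H] [NumberField H] [Algebra K H]
  [IsAbelianGalois K H]

theorem unram_iff (v : HeightOneSpectrum (𝓞 K)) : Unram K H v ↔ Unramified H v :=
  ⟨fun h => Pool.Agent.H509.Rec.unr_of_squarefree ((Pool.Agent.H588.ST.unr K H v).1 h),
    fun h => (Pool.Agent.H588.ST.unr K H v).2 (Pool.Agent.H788.BT.squarefree_of_unr h)⟩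

/-- the ramified prime ideals belong to the symbols -/
theorem exists_index (D : RubinData K H (CG K H)) (Λ : Lam D) (v : HeightOneSpectrum (𝓞 K))
    (hv : ¬ Unram K H v) : ∃ (i : Λ.ι) (w : HeightOneSpectrum (𝓞 H)), Λ.u i = Sum.inr w ∧
      w.under (𝓞 K) = v := by
  obtain ⟨w, hw⟩ := (Pool.Agent.K3h25.RS.t_OVER K H v).1
  have hwv : w.under (𝓞 K) = v := by
    obtain ⟨v', hv', hw'⟩ := hw
    rw [Set.mem_singleton_iff] at hv'
    subst hv'
    exact HeightOneSpectrum.ext hw'
  have hvS : v ∈ D.S := by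
    by_contra h
    exact hv ((Pool.Agent.H588.ST.unr K H v).2 (D.unramified v h))
  have hin : InS (D.S : Set (HeightOneSpectrum (𝓞 K))) (Sum.inr w : Place H) := by
    refine ⟨v, hvS, ?_⟩
    rw [← hwv]
    rfl
  have hns : ∀ j, ¬ Conj (CG K H) (Sum.inr w : Place H) (D.w j) := by
    intro j hj
    apply hv
    rw [unram_iff, ← hwv]
    exact unramified_of_splits (G := CG K H) fun γ hγ => D.splits j γ (fixes_conj hj hγ)
  obtain ⟨i, hi⟩ := Λ.all _ hin hns
  obtain ⟨p, hp⟩ := exists_below (F := K) (Λ.u i)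
  have h1 : (Sum.inr v : InfinitePlace K ⊕ HeightOneSpectrum (𝓞 K)) = p :=
    below_of_conj (p := Sum.inr v) (w := Sum.inr w) hw hp hi
  rw [← h1] at hp
  refine ⟨i, ?_⟩
  rcases hui : Λ.u i with w' | w'
  · rw [hui] at hp
    exact hp.elim
  · rw [hui] at hp
    refine ⟨w', rfl, ?_⟩
    obtain ⟨v', hv', hw'⟩ := (show Above {v} w' from hp)
    rw [Set.mem_singleton_iff] at hv'
    subst hv'
    exact HeightOneSpectrum.ext hw'

/-- the bound for the decomposition groups -/
theorem card_le (D : RubinData K H (CG K H)) (hG : ∀ g : CG K H, g * g = 1)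
    (v : HeightOneSpectrum (𝓞 K)) (hv2 : (2 : 𝓞 K) ∈ v.asIdeal) (hvr : ¬ Unram K H v)
    (hev : ∀ (x : Kˣ) (h : Hˣ), up K H x = h ^ 2 → Even (prin x v))
    (hE : ∀ E : IntermediateField K H, Module.finrank K E = 2 → ¬ UnramifiedEverywhere K E)
    (hsum : Module.finrank ℚ K ≤ 2 + Nat.card (RC K H)) : Nat.card (Sg D) ≤ 2 ^ sc D := by
  classical
  obtain ⟨Λ⟩ := all_lam K H (CG K H) D hG
  obtain ⟨i0, w0, hi0, hw0⟩ := exists_index D Λ v hvr
  have hiso := iso2 D hG Λ i0 w0 hi0 (by rw [hw0]; exact hv2)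
    (by rw [hw0, ← unram_iff]; exact hvr) (by rw [hw0]; exact hev) (by
      intro x h hx h1 h3
      refine fix_of_no_unram hE x h hx ?_ ?_
      · intro v' hv'
        obtain ⟨i, w, hi, hw⟩ := exists_index D Λ v' hv'
        have h4 := h1 i w hi (by rw [hw, ← unram_iff]; exact hv')
        rwa [hw] at h4
      · intro w γ hγ
        by_cases hj : ∃ j, Conj (CG K H) (Sum.inl w : Place H) (D.w j)
        · obtain ⟨j, hj⟩ := hj
          rw [D.splits j γ (fixes_conj hj hγ), one_smul]
        · push Not at hj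
          obtain ⟨i, hi⟩ := Λ.all (Sum.inl w) trivial hj
          obtain ⟨p, hp⟩ := exists_below (F := K) (Λ.u i)
          have h5 := below_of_conj (p := Sum.inl (w.comap (algebraMap K H))) (w := Sum.inl w)
            rfl hp hi
          rw [← h5] at hp
          have h6 := fixes_conj hi hγ
          rcases hui : Λ.u i with w' | w'
          · rw [hui] at h6
            exact h3 i w' hui γ h6
          · rw [hui] at hp
            exact hp.elim)
  refine wild2 D hG Λ hiso (two_finite (K := K)).toFinset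
    (fun v hv _ => (Set.Finite.mem_toFinset _).2 hv) ?_
  exact (sum_deg_le fun v hv => (Set.Finite.mem_toFinset two_finite).1 hv).trans hsum

/-- the valuation of `x` at `v` is even -/
def EvenAt (v : HeightOneSpectrum (𝓞 K)) (x : K) : Prop :=
  ∃ n : ℤ, v.valuation K x = WithZero.exp (2 * n)

theorem even_of_evenAt {v : HeightOneSpectrum (𝓞 K)} {x : Kˣ} (h : EvenAt v (x : K)) :
    Even (prin x v) := by
  obtain ⟨n, hn⟩ := h
  rw [Pool.Agent.Q125.AR.valuation_eq_exp, WithZero.exp_inj] at hn
  exact ⟨-n, by omega⟩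

/-- **The rank one abelian Stark conjecture in Tate's form** for groups of exponent two -/
theorem stark_c (h2 : ∀ g : Gal(H/K), g * g = 1) (S : Finset (Pool.Agent.N598.ST.Place K))
    (p : Pool.Agent.N598.ST.Place K) (hD : Data K H S p)
    (hnt : 3 ≤ S.card ∨ ∃ q ∈ S, ¬ TotallySplit K H q)
    (h : InfinitePlace.nrComplexPlaces K ≠ 1 ∨
      (∃ v : HeightOneSpectrum (𝓞 K), (2 : 𝓞 K) ∈ v.asIdeal ∧ Unram K H v) ∨
      Nat.card (SigmaG K H S) ≤ 2 ^ (S.card - 1) ∨
      ((∃ v : HeightOneSpectrum (𝓞 K), (2 : 𝓞 K) ∈ v.asIdeal ∧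
          ∀ (x : K) (y : H), x ≠ 0 → y ^ 2 = algebraMap K H x → EvenAt v x) ∧
        ∀ E : IntermediateField K H, Module.finrank K E = 2 → ¬ UnramifiedEverywhere K E)) :
    Stark K H S p := by
  classical
  rcases h with h | h | h | ⟨⟨v, hv2, hev⟩, hE⟩
  · exact Pool.Agent.STk.stark_exp2 h2 S p hD hnt (Or.inl h)
  · exact Pool.Agent.STk.stark_exp2 h2 S p hD hnt (Or.inr (Or.inl h))
  · exact Pool.Agent.STk.stark_exp2 h2 S p hD hnt (Or.inr (Or.inr h))
  by_cases hc : InfinitePlace.nrComplexPlaces K = 1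
  swap
  · exact Pool.Agent.STk.stark_exp2 h2 S p hD hnt (Or.inl hc)
  by_cases hvr : Unram K H v
  · exact Pool.Agent.STk.stark_exp2 h2 S p hD hnt (Or.inr (Or.inl ⟨v, hv2, hvr⟩))
  by_cases hq : ∃ q ∈ S, q ≠ p ∧ TotallySplit K H q
  · exact Pool.Agent.STk.rank_one h2 S p hD hnt (Or.inl hq)
  push Not at hq
  refine Pool.Agent.STk.st K H (CG K H) (toCG K H) (toCG_smul K H) h2 S p hD hnt
    fun D hDS hDr => ?_
  refine Pool.Agent.BT9.pop_bt Pool.Agent.BT9.all D h2 ?_ D subset_rfl
  refine card_le D h2 v hv2 hvr ?_ hE ?_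
  · intro x y hxy
    refine even_of_evenAt (hev (x : K) (y : H) x.ne_zero ?_)
    exact (congrArg Units.val hxy).symm
  · obtain ⟨v₀, h0, h1⟩ := Pool.Agent.N820.RS.exists_complex hc
    have hp : Sum.inl v₀ = p := by
      by_contra h5
      exact hq _ (hD.arch _) h5 (Pool.Agent.N820.RS.split_complex _ h0)
    have h4 : ∀ v : InfinitePlace K, v.IsReal →
        v.IsReal ∧ ∀ w : InfinitePlace H, w.comap (algebraMap K H) = v → w.IsComplex := by
      intro v hv
      refine (split_or v).resolve_left (hq _ (hD.arch v) ?_)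
      intro h5
      have h6 : v = v₀ := Sum.inl_injective (h5.trans hp.symm)
      rw [h6] at hv
      exact (InfinitePlace.not_isReal_iff_isComplex.2 h0) hv
    have hfin : Finite (RC K H) := by unfold RC; infer_instance
    have h5 : InfinitePlace.nrRealPlaces K ≤ Nat.card (RC K H) := by
      unfold InfinitePlace.nrRealPlaces
      rw [← Nat.card_eq_fintype_card]
      refine Nat.card_le_card_of_injective
        (fun v : {v : InfinitePlace K // v.IsReal} => (⟨v.1, h4 v.1 v.2⟩ : RC K H)) ?_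
      intro a b hab
      exact Subtype.ext (congrArg (fun x : RC K H => x.1) hab)
    have h6 := InfinitePlace.card_add_two_mul_card_eq_rank K
    rw [hc] at h6
    omega

end Pool.Agent.H896.SE
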