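import Pool.Agent.H896.SE.Nrm

/-!
# The improved bound for the group generated by the decomposition groups (helper896)
-/

set_option autoImplicit false
set_option linter.unusedSectionVars false
set_option linter.deprecated false

open NumberField IsDedekindDomain Filter Topology Module

noncomputable section

namespace Pool.Agent.H896.SE

open Pool.Agent.BT9
open Pool.Agent.Q92.AR (Dv prin Pr Ray nmD nu up sD puD Cong Pos frob IsFrobenius Unramified Ram art
  prin_mul prin_one prin_inv)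
open Pool.Agent.K3h30.RS
open Pool.Agent.K3h56.E2 (Quad Dict)
open Pool.Agent.H509.E3 (dg mem_dg)
open Pool.Agent.H788.BT (two_notMem exQ_arch val_inv sq_le_index fr_even even_of_sq YY mem_YY kum
  kum_apply kum_inj dg_unram)

variable {F H G : Type} [Field F] [NumberField F] [Field H] [NumberField H] [Algebra F H]
  [CommGroup G] [Finite G] [MulSemiringAction G H]

/-- `x` is `y² (1 + 4 x')` with an integral `x'`, at `v` -/
def NearSq (v : HeightOneSpectrum (𝓞 F)) (x : Fˣ) : Prop :=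
  ∃ y : Fˣ, v.valuation F ((x : F) / (y : F) ^ 2 - 1) ≤ v.valuation F 4 ∧
    v.valuation F ((x : F) / (y : F) ^ 2 - 1) < 1

/-- the local group at a prime ideal -/
theorem exQ_fin2 [SMulCommClass G F H] (hG : ∀ g : G, g * g = 1) (w : HeightOneSpectrum (𝓞 H))
    (N : ℕ) (hN : N ≠ 0) (L : Fˣ →* G)
    (hnear : ∀ x, Near N (Sum.inr w : Place H) x → L x = 1) :
    ∃ Q : Subgroup Fˣ, Q.index ≠ 0 ∧
      Q.index ≤ 4 * Ideal.absNorm (w.under (𝓞 F)).asIdeal ^ e2 (w.under (𝓞 F)) ∧
      (∀ x ∈ Q, L x = 1) ∧ ∀ x ∈ Q, NearSq (w.under (𝓞 F)) x := by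
  set v := w.under (𝓞 F) with hv
  have hNF : (N : F) ≠ 0 := Nat.cast_ne_zero.2 hN
  set m : ℕ := (prin (Units.mk0 (N : F) hNF) v).toNat with hm
  set e : ℕ := 2 * e2 v + 1 + m with he
  have he1 : 1 ≤ e := by omega
  have hprim : IsPrimitiveRoot (-1 : F) 2 := IsPrimitiveRoot.neg_one 0 (by norm_num)
  have hidx := Pool.Agent.Q299.EX.index_Hv Pool.Agent.Q299.EX.locn (n := 2) two_pos hprim v
    (e2 v) e he1 (two_notMem v)
  refine ⟨Pool.Agent.Q299.EX.Hv v 2 e he1, hidx.1, ?_, ?_, ?_⟩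
  · refine hidx.2.trans (le_of_eq ?_)
    ring
  · rintro x ⟨y, hy⟩
    have h1 : L (x / y ^ 2) = 1 := by
      apply hnear
      change v.valuation F (((x / y ^ 2 : Fˣ) : F) - 1) ≤ v.valuation F (N : F)
      rw [Units.val_div_eq_div_val, Units.val_pow_eq_pow_val]
      refine hy.trans ?_
      have h2 : v.valuation F (N : F) = WithZero.exp (-(prin (Units.mk0 (N : F) hNF) v)) :=
        Pool.Agent.Q125.AR.valuation_eq_exp (Units.mk0 (N : F) hNF) v
      rw [h2, WithZero.exp_le_exp]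
      have h3 : prin (Units.mk0 (N : F) hNF) v ≤ (m : ℤ) := Int.self_le_toNat _
      push_cast [he]
      omega
    rw [map_div, map_pow, pow_two, hG, div_one] at h1
    exact h1
  · rintro x ⟨y, hy⟩
    refine ⟨y, hy.trans ?_, hy.trans_lt ?_⟩
    · have h2 : v.valuation F (2 : F) = WithZero.exp (-(prin (Units.mk0 (2 : F) two_ne_zero) v)) :=
        Pool.Agent.Q125.AR.valuation_eq_exp (Units.mk0 (2 : F) two_ne_zero) v
      have h4 : (4 : F) = 2 ^ 2 := by norm_num
      rw [h4, map_pow, h2, ← WithZero.exp_nsmul, WithZero.exp_le_exp]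
      have h3 : prin (Units.mk0 (2 : F) two_ne_zero) v ≤ (e2 v : ℤ) := Int.self_le_toNat _
      rw [nsmul_eq_mul]
      push_cast [he]
      omega
    · rw [← WithZero.exp_zero, WithZero.exp_lt_exp]
      omega

/-- the local group at the chosen prime ideal above two -/
theorem exQ_unr [IsGaloisGroup G F H] (D : RubinData F H G) (hG : ∀ g : G, g * g = 1)
    (Λ : Lam D) (i : Λ.ι) (w : HeightOneSpectrum (𝓞 H)) (hw : Λ.u i = Sum.inr w)
    (h2 : (2 : 𝓞 F) ∈ (w.under (𝓞 F)).asIdeal)
    (hev : ∀ (x : Fˣ) (h : Hˣ), up F H x = h ^ 2 → Even (prin x (w.under (𝓞 F)))) :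
    ∃ Q : Subgroup Fˣ, Q.index ≠ 0 ∧
      2 * Q.index ≤ 4 * Ideal.absNorm (w.under (𝓞 F)).asIdeal ^ e2 (w.under (𝓞 F)) ∧
      (∀ x ∈ Q, Λ.L i x = 1) ∧ ∀ x ∈ Q, NearSq (w.under (𝓞 F)) x := by
  set v := w.under (𝓞 F) with hv
  have hv2 : v.valuation F (2 : F) < 1 := by
    have h3 : v.valuation F (algebraMap (𝓞 F) F 2) < 1 := val_lt_one v h2
    rwa [map_ofNat] at h3
  have h2e : v.valuation F (2 : F) = WithZero.exp (-(prin (Units.mk0 (2 : F) two_ne_zero) v)) :=
    Pool.Agent.Q125.AR.valuation_eq_exp (Units.mk0 (2 : F) two_ne_zero) v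
  have hpos : 0 < prin (Units.mk0 (2 : F) two_ne_zero) v := by
    rw [h2e, ← WithZero.exp_zero, WithZero.exp_lt_exp] at hv2
    omega
  have hk : (e2 v : ℤ) = prin (Units.mk0 (2 : F) two_ne_zero) v := by
    unfold e2
    exact Int.toNat_of_nonneg hpos.le
  have hk1 : 1 ≤ e2 v := by omega
  have h2e' : v.valuation F (2 : F) = WithZero.exp (-(e2 v : ℤ)) := by rw [h2e, hk]
  have h4e : v.valuation F (4 : F) = WithZero.exp (-((2 * e2 v : ℕ) : ℤ)) := by
    have e : (4 : F) = 2 ^ 2 := by norm_num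
    rw [e, map_pow, h2e', ← WithZero.exp_nsmul]
    congr 1
    push_cast
    simp
  have hidx := index_unr v h2 (e2 v) hk1 h2e'
  refine ⟨_, hidx.1, hidx.2, ?_, ?_⟩
  · rintro x ⟨y, hy⟩
    refine symbol_one D hG Λ i w hw h2 hev x y ?_
    rw [← hv, h4e]
    exact hy
  · rintro x ⟨y, hy⟩
    refine ⟨y, by rw [h4e]; exact hy, hy.trans_lt ?_⟩
    rw [← WithZero.exp_zero, WithZero.exp_lt_exp]
    push_cast
    omega

/-- **the improved bound** -/
theorem iso2 [IsGaloisGroup G F H] (D : RubinData F H G) (hG : ∀ g : G, g * g = 1) (Λ : Lam D)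
    (i0 : Λ.ι) (w0 : HeightOneSpectrum (𝓞 H)) (hw0 : Λ.u i0 = Sum.inr w0)
    (h2 : (2 : 𝓞 F) ∈ (w0.under (𝓞 F)).asIdeal) (hr : ¬ Unramified H (w0.under (𝓞 F)))
    (hev : ∀ (x : Fˣ) (h : Hˣ), up F H x = h ^ 2 → Even (prin x (w0.under (𝓞 F))))
    (hH : ∀ (x : Fˣ) (h : Hˣ), up F H x = h ^ 2 →
      (∀ i (w : HeightOneSpectrum (𝓞 H)), Λ.u i = Sum.inr w → ¬ Unramified H (w.under (𝓞 F)) →
        NearSq (w.under (𝓞 F)) x) →
      (∀ i (w : InfinitePlace H), Λ.u i = Sum.inl w → ∀ γ : G, Fixes (Sum.inl w : Place H) γ →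
        γ • (h : H) = h) → ∀ g : G, g • (h : H) = h) :
    2 * Nat.card (Sg D) ^ 2 ≤ (letI := Λ.fin; ∏ i, lb F (Λ.u i)) := by
  let _ := Λ.fin
  classical
  have hcomm : SMulCommClass G F H := IsGaloisGroup.commutes
  let U : Λ.ι → Prop := fun i => ∃ w : HeightOneSpectrum (𝓞 H), Λ.u i = Sum.inr w ∧
    Unramified H (w.under (𝓞 F))
  have hlbU : ∀ i, U i → lb F (Λ.u i) = 4 := by
    rintro i ⟨w, hw, hu⟩
    rw [hw]
    exact if_pos hu
  have hU0 : ¬ U i0 := by
    rintro ⟨w, hw, hu⟩
    rw [hw0] at hw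
    obtain rfl := Sum.inr_injective hw
    exact hr hu
  have hQ : ∀ i, ∃ Q : Subgroup Fˣ, Q.index ≠ 0 ∧
      (if i = i0 then 2 else 1) * Q.index ≤ (if U i then 1 else lb F (Λ.u i)) ∧
      (¬ U i → (∀ x ∈ Q, Λ.L i x = 1) ∧
        (∀ w : HeightOneSpectrum (𝓞 H), Λ.u i = Sum.inr w → ∀ x ∈ Q, NearSq (w.under (𝓞 F)) x) ∧
        (∀ w : InfinitePlace H, Λ.u i = Sum.inl w → ∀ x ∈ Q, ∀ h : H,
          algebraMap F H (x : F) = h ^ 2 →
          ∀ γ : G, Fixes (Sum.inl w : Place H) γ → γ • h = h)) := by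
    intro i
    by_cases hi : i = i0
    · subst hi
      obtain ⟨Q, h1, h2', h3, h4⟩ := exQ_unr D hG Λ i w0 hw0 h2 hev
      refine ⟨Q, h1, ?_, fun _ => ⟨h3, ?_, ?_⟩⟩
      · rw [if_pos rfl, if_neg hU0, hw0]
        refine h2'.trans (le_of_eq ?_)
        exact (if_neg hr).symm
      · intro w hw
        rw [hw0] at hw
        obtain rfl := Sum.inr_injective hw
        exact h4
      · intro w hw
        rw [hw0] at hw
        exact absurd hw (by simp)
    rw [if_neg hi]
    by_cases hU : U i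
    · refine ⟨⊤, ?_, ?_, fun h => absurd hU h⟩
      · rw [Subgroup.index_top]
        exact one_ne_zero
      · rw [if_pos hU, Subgroup.index_top]
    · rw [if_neg hU]
      rcases hw : Λ.u i with w | w
      · obtain ⟨Q, h1, h2, h3, h4⟩ := exQ_arch (F := F) (G := G) w Λ.N (Λ.L i) (fun x hx => by
          refine Λ.near i x ?_
          rw [hw]
          exact hx)
        refine ⟨Q, h1, by rw [one_mul]; exact h2, fun _ => ⟨h3, ?_, ?_⟩⟩
        · intro w' hw'
          exact absurd hw' (by simp)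
        · intro w' hw'
          obtain rfl := Sum.inl_injective hw'
          exact h4
      · obtain ⟨Q, h1, h2, h3, h4⟩ := exQ_fin2 (F := F) (G := G) hG w Λ.N Λ.N0 (Λ.L i)
          (fun x hx => by
            refine Λ.near i x ?_
            rw [hw]
            exact hx)
        refine ⟨Q, h1, ?_, fun _ => ⟨h3, ?_, ?_⟩⟩
        · have hu : ¬ Unramified H (w.under (𝓞 F)) := fun hu => hU ⟨w, hw, hu⟩
          rw [one_mul]
          refine h2.trans (le_of_eq ?_)
          exact (if_neg hu).symm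
        · intro w' hw'
          obtain rfl := Sum.inr_injective hw'
          exact h4
        · intro w' hw'
          exact absurd hw' (by simp)
  choose Q hQ0 hQ1 hQ2 using hQ
  let I0 : Finset Λ.ι := Finset.univ.filter (fun i => ¬ U i)
  have hI0 : ∀ i, i ∈ I0 ↔ ¬ U i := fun i => by
    change i ∈ Finset.univ.filter (fun i => ¬ U i) ↔ _
    rw [Finset.mem_filter]
    exact and_iff_right (Finset.mem_univ i)
  let lam : Fˣ →* G := ∏ i ∈ I0, Λ.L i
  have hlam : ∀ x, lam x = ∏ i ∈ I0, Λ.L i x := fun x => MonoidHom.finset_prod_apply _ _ x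
  -- the bound for the image of `lam`
  have hA : Nat.card lam.range ^ 2 ≤ (⨅ i, Q i).index := by
    refine sq_le_index lam (⨅ i, Q i) (Subgroup.index_iInf_ne_zero hQ0) ?_
      ((MonoidHom.fst Fˣ Hˣ).comp (YY F H).subtype) ?_
      (fun γ => (kum (γ : G) : YY F H →* H)) ?_ ?_
    · intro x hx
      rw [Subgroup.mem_iInf] at hx
      rw [MonoidHom.mem_ker, hlam]
      exact Finset.prod_eq_one fun i hi => (hQ2 i ((hI0 i).1 hi)).1 x (hx i)
    · rintro x ⟨y, rfl⟩
      have hy : up F H (y : Fˣ × Hˣ).1 = (y : Fˣ × Hˣ).2 ^ 2 := mem_YY.1 y.2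
      rw [MonoidHom.mem_ker, hlam]
      change ∏ i ∈ I0, Λ.L i (y : Fˣ × Hˣ).1 = 1
      have h1 : ∏ i ∈ I0, Λ.L i (y : Fˣ × Hˣ).1 = ∏ i, Λ.L i (y : Fˣ × Hˣ).1 := by
        refine Finset.prod_subset (Finset.subset_univ _) fun i _ hi => ?_
        have hU : U i := by
          by_contra hU
          exact hi ((hI0 i).2 hU)
        obtain ⟨w, hw, hu⟩ := hU
        exact Λ.unr i w hw hu _ (even_of_sq hy w hu)
      rw [h1, Λ.prod]
      refine fr_even D hG _ fun v hv => ?_
      obtain ⟨w, v', hv', hw⟩ := (Pool.Agent.K3h25.RS.t_OVER F H v).1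
      rw [Set.mem_singleton_iff] at hv'
      subst hv'
      have hwv : w.under (𝓞 F) = v' := HeightOneSpectrum.ext hw
      have hu : Unramified H v' := Pool.Agent.H509.Rec.unr_of_squarefree (D.unramified v' hv)
      rw [← hwv] at hu ⊢
      exact even_of_sq hy w hu
    · intro γ γ' h
      exact Subtype.ext (kum_inj (F := F) (H := H) hG h)
    · intro γ y hy
      have hy1 : (y : Fˣ × Hˣ).1 ∈ ⨅ i, Q i := hy
      rw [Subgroup.mem_iInf] at hy1
      have hy2 : algebraMap F H ((y : Fˣ × Hˣ).1 : F) = ((y : Fˣ × Hˣ).2 : H) ^ 2 :=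
        congrArg Units.val (mem_YY.1 y.2)
      obtain ⟨g, a, rfl⟩ := γ
      change kum (lam a) y = 1
      have h1 : lam a • ((y : Fˣ × Hˣ).2 : H) = ((y : Fˣ × Hˣ).2 : H) := by
        refine hH _ _ (mem_YY.1 y.2) ?_ ?_ (lam a)
        · intro i w hw hu
          refine (hQ2 i ?_).2.1 w hw _ (hy1 i)
          rintro ⟨w', hw', hu'⟩
          rw [hw] at hw'
          obtain rfl := Sum.inr_injective hw'
          exact hu hu'
        · intro i w hw γ hγ
          refine (hQ2 i ?_).2.2 w hw _ (hy1 i) _ hy2 γ hγ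
          rintro ⟨w', hw', -⟩
          rw [hw] at hw'
          exact absurd hw' (by simp)
      rw [kum_apply, h1, div_self (Units.ne_zero _)]
  -- the generators
  let P : Option Λ.ι → Subgroup G := fun o => match o with
    | none => lam.range
    | some i => if U i then dg (Λ.u i) else ⊥
  have hPn : P none = lam.range := rfl
  have hPs : ∀ i, P (some i) = if U i then dg (Λ.u i) else ⊥ := fun i => rfl
  have hSg : Sg D ≤ ⨆ o, P o := by
    refine (Subgroup.closure_le _).2 ?_
    rintro γ ⟨-, w, hw, hγ⟩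
    by_cases hj : ∃ j, Conj G w (D.w j)
    · obtain ⟨j, hj⟩ := hj
      have h1 : γ = 1 := D.splits j γ (Pool.Agent.H509.E3.fixes_conj hj hγ)
      rw [h1]
      exact Subgroup.one_mem _
    · push Not at hj
      obtain ⟨i, hi⟩ := Λ.all w hw hj
      have hγi : Fixes (Λ.u i) γ := Pool.Agent.H509.E3.fixes_conj hi hγ
      by_cases hU : U i
      · have h1 : γ ∈ P (some i) := by
          rw [hPs, if_pos hU]
          exact mem_dg.2 hγi
        exact (le_iSup P (some i)) h1
      · obtain ⟨x, hx, -⟩ := Λ.approx (Pi.mulSingle i γ) (fun i' => by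
          by_cases hi' : i' = i
          · subst hi'
            rw [Pi.mulSingle_eq_same]
            exact hγi
          · rw [Pi.mulSingle_eq_of_ne hi']
            exact mem_dg.1 (one_mem (dg (G := G) (Λ.u i')))) ∅ (Finset.disjoint_empty_right _)
          (fun _ => 0)
        have h1 : γ ∈ P none := by
          refine ⟨x, ?_⟩
          rw [hlam, Finset.prod_eq_single i]
          · rw [hx, Pi.mulSingle_eq_same]
          · intro i' _ hi'
            rw [hx, Pi.mulSingle_eq_of_ne hi']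
          · intro h2
            exact absurd ((hI0 i).2 hU) h2
        exact (le_iSup P none) h1
  have hB : Nat.card (Sg D) ≤ Nat.card lam.range * ∏ i, Nat.card (P (some i)) := by
    refine (Pool.Agent.H509.E3.card_le_prod P (Sg D) hSg).trans (le_of_eq ?_)
    rw [Fintype.prod_option]
  have h21 : (2 : ℕ) = ∏ i, (if i = i0 then 2 else 1) := by
    rw [Finset.prod_ite_eq' Finset.univ i0 (fun _ => 2), if_pos (Finset.mem_univ i0)]
  calc 2 * Nat.card (Sg D) ^ 2
      ≤ 2 * (Nat.card lam.range * ∏ i, Nat.card (P (some i))) ^ 2 :=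
        Nat.mul_le_mul_left _ (Nat.pow_le_pow_left hB 2)
    _ = (2 * Nat.card lam.range ^ 2) * ∏ i, Nat.card (P (some i)) ^ 2 := by
        rw [mul_pow, Finset.prod_pow, mul_assoc]
    _ ≤ (∏ i, (if U i then 1 else lb F (Λ.u i))) * ∏ i, (if U i then 4 else 1) := by
        refine Nat.mul_le_mul ?_ ?_
        · calc 2 * Nat.card lam.range ^ 2
              ≤ 2 * ∏ i, (Q i).index :=
                Nat.mul_le_mul_left _ (hA.trans (Subgroup.index_iInf_le Q))
            _ = ∏ i, ((if i = i0 then 2 else 1) * (Q i).index) := by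
                rw [Finset.prod_mul_distrib, ← h21]
            _ ≤ _ := Finset.prod_le_prod' fun i _ => hQ1 i
        · refine Finset.prod_le_prod' fun i _ => ?_
          by_cases hU : U i
          · rw [hPs, if_pos hU, if_pos hU]
            obtain ⟨w, hw, hu⟩ := hU
            rw [hw]
            have h1 := dg_unram (G := G) hG w hu
            calc _ ≤ 2 ^ 2 := Nat.pow_le_pow_left h1 2
              _ = 4 := rfl
          · rw [hPs, if_neg hU, if_neg hU, Subgroup.card_bot, one_pow]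
    _ = ∏ i, lb F (Λ.u i) := by
        rw [← Finset.prod_mul_distrib]
        refine Finset.prod_congr rfl fun i _ => ?_
        by_cases hU : U i
        · rw [if_pos hU, if_pos hU, hlbU i hU, one_mul]
        · rw [if_neg hU, if_neg hU, mul_one]

end Pool.Agent.H896.SE
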