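import Pool.Graph.R_pool_sql_team_seeded_3997aac3.Q299.EX.CntA
import Pool.Graph.R_pool_sql_team_seeded_3997aac3.Q299.EX.Locn

/-!
# The unramified class at a prime ideal above two (helper896)
-/

set_option autoImplicit false
set_option linter.unusedSectionVars false
set_option linter.deprecated false

namespace Pool.Agent.H896.SE

open NumberField IsDedekindDomain WithZero
open Pool.Agent.Q299.EX (Hv mem_Hv index_Hv locn)

variable {F : Type} [Field F] [NumberField F]

/-- there is an element which is not of the form `t² + t` in the residue field -/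
theorem exists_as (v : HeightOneSpectrum (𝓞 F)) (h2 : (2 : 𝓞 F) ∈ v.asIdeal) :
    ∃ x : 𝓞 F, ∀ t : 𝓞 F, t ^ 2 + t - x ∉ v.asIdeal := by
  classical
  have hfin : Finite (𝓞 F ⧸ v.asIdeal) := Ideal.finiteQuotientOfFreeOfNeBot _ v.ne_bot
  have hp := v.isPrime
  have h20 : (2 : 𝓞 F ⧸ v.asIdeal) = 0 := by
    have h := (Ideal.Quotient.eq_zero_iff_mem (I := v.asIdeal)).2 h2
    rwa [map_ofNat] at h
  have hns : ¬ Function.Surjective (fun t : 𝓞 F ⧸ v.asIdeal => t ^ 2 + t) := by
    intro hs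
    have hi := Finite.injective_iff_surjective.2 hs
    have h01 : (fun t : 𝓞 F ⧸ v.asIdeal => t ^ 2 + t) 0 =
        (fun t : 𝓞 F ⧸ v.asIdeal => t ^ 2 + t) 1 := by
      change (0 : 𝓞 F ⧸ v.asIdeal) ^ 2 + 0 = 1 ^ 2 + 1
      have e : (1 : 𝓞 F ⧸ v.asIdeal) ^ 2 + 1 = 2 := by norm_num
      rw [e, h20]
      ring
    exact zero_ne_one (hi h01)
  obtain ⟨b, hb⟩ := not_forall.1 hns
  obtain ⟨x, rfl⟩ := Ideal.Quotient.mk_surjective b
  refine ⟨x, fun t ht => hb ⟨Ideal.Quotient.mk _ t, ?_⟩⟩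
  have h := (Ideal.Quotient.eq_zero_iff_mem (I := v.asIdeal)).2 ht
  rw [map_sub, map_add, map_pow, sub_eq_zero] at h
  exact h

/-- every element is, up to sign, a square in the residue field -/
theorem exists_sq (v : HeightOneSpectrum (𝓞 F)) (h2 : (2 : 𝓞 F) ∈ v.asIdeal) {a x : 𝓞 F}
    (ha : a ∉ v.asIdeal) : ∃ s : 𝓞 F, a * s ^ 2 + x ∈ v.asIdeal := by
  classical
  have hfin : Finite (𝓞 F ⧸ v.asIdeal) := Ideal.finiteQuotientOfFreeOfNeBot _ v.ne_bot
  have hmax := v.isMaximal
  let _ : Field (𝓞 F ⧸ v.asIdeal) := Ideal.Quotient.field v.asIdeal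
  have h20 : (2 : 𝓞 F ⧸ v.asIdeal) = 0 := by
    have h := (Ideal.Quotient.eq_zero_iff_mem (I := v.asIdeal)).2 h2
    rwa [map_ofNat] at h
  have hi : Function.Injective (fun t : 𝓞 F ⧸ v.asIdeal => t ^ 2) := by
    intro s t hst
    have h : (s - t) ^ 2 = 0 := by
      have e : (s - t) ^ 2 = s ^ 2 + t ^ 2 - 2 * (s * t) := by ring
      have hst' : s ^ 2 = t ^ 2 := hst
      rw [e, hst', h20, zero_mul, sub_zero, ← two_mul, h20, zero_mul]
    exact sub_eq_zero.1 (pow_eq_zero_iff two_ne_zero |>.1 h)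
  have hs := Finite.injective_iff_surjective.1 hi
  have ha0 : (Ideal.Quotient.mk v.asIdeal a) ≠ 0 := fun h =>
    ha ((Ideal.Quotient.eq_zero_iff_mem (I := v.asIdeal)).1 h)
  obtain ⟨s', hs'⟩ := hs (-(Ideal.Quotient.mk v.asIdeal x) / (Ideal.Quotient.mk v.asIdeal a))
  obtain ⟨s, rfl⟩ := Ideal.Quotient.mk_surjective s'
  refine ⟨s, (Ideal.Quotient.eq_zero_iff_mem (I := v.asIdeal)).1 ?_⟩
  have hs'' : (Ideal.Quotient.mk v.asIdeal s) ^ 2 =
    -(Ideal.Quotient.mk v.asIdeal x) / (Ideal.Quotient.mk v.asIdeal a) := hs'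
  rw [map_add, map_mul, map_pow, hs'']
  field_simp
  ring

theorem val_lt_one (v : HeightOneSpectrum (𝓞 F)) {a : 𝓞 F} (ha : a ∈ v.asIdeal) :
    v.valuation F (a : F) < 1 := (v.valuation_lt_one_iff_mem (K := F) a).2 ha

/-- approximation by an integer -/
theorem exists_int (v : HeightOneSpectrum (𝓞 F)) {x : F} (hx : v.valuation F x ≤ 1) :
    ∃ a : 𝓞 F, v.valuation F ((a : F) - x) < 1 := by
  obtain ⟨a, ha⟩ := v.exists_valuation_sub_lt_of_integer hx 1
  exact ⟨a, ha⟩

/-- `1 + 4x` is not a square up to a factor near one -/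
theorem not_near (v : HeightOneSpectrum (𝓞 F)) (h2 : (2 : 𝓞 F) ∈ v.asIdeal) {x : 𝓞 F}
    (hx : ∀ t : 𝓞 F, t ^ 2 + t - x ∉ v.asIdeal) (y : F) (hy0 : y ≠ 0) :
    ¬ v.valuation F ((1 + 4 * (x : F)) / y ^ 2 - 1) < v.valuation F 4 := by
  intro h
  have hv2 : v.valuation F (2 : F) < 1 := by
    have h3 : v.valuation F (algebraMap (𝓞 F) F 2) < 1 := val_lt_one v h2
    rwa [map_ofNat] at h3
  have hv20 : v.valuation F (2 : F) ≠ 0 := (map_ne_zero _).2 two_ne_zero
  have hv4 : v.valuation F (4 : F) = v.valuation F 2 ^ 2 := by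
    rw [← map_pow]; norm_num
  have hv4lt : v.valuation F (4 : F) < 1 := by
    rw [hv4]; exact pow_lt_one₀ zero_le' hv2 two_ne_zero
  have hv40 : (4 : F) ≠ 0 := by norm_num
  have hxi : v.valuation F (x : F) ≤ 1 := v.valuation_le_one x
  set c : F := 1 + 4 * (x : F) with hc
  have hc1 : v.valuation F (c - 1) ≤ v.valuation F 4 := by
    have e : c - 1 = 4 * (x : F) := by rw [hc]; ring
    rw [e, map_mul]
    exact mul_le_of_le_one_right' hxi
  have one_of : ∀ z : F, v.valuation F (z - 1) < 1 → v.valuation F z = 1 := by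
    intro z hz
    have h2 : v.valuation F (z - 1) < v.valuation F (1 : F) := by
      rw [map_one]
      exact hz
    have h3 := Valuation.map_add_eq_of_lt_right (v.valuation F) h2
    rw [sub_add_cancel, map_one] at h3
    exact h3
  have hcv : v.valuation F c = 1 := one_of c (hc1.trans_lt hv4lt)
  have hqv : v.valuation F (c / y ^ 2) = 1 := one_of _ (h.trans hv4lt)
  have hyv2 : v.valuation F (y ^ 2) = 1 := by
    rw [map_div₀, hcv] at hqv
    have hne : v.valuation F (y ^ 2) ≠ 0 := (map_ne_zero _).2 (pow_ne_zero _ hy0)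
    field_simp at hqv
    exact hqv.symm
  have hcy : v.valuation F (c - y ^ 2) < v.valuation F 4 := by
    have e : c - y ^ 2 = (c / y ^ 2 - 1) * y ^ 2 := by field_simp
    rw [e, map_mul, hyv2, mul_one]
    exact h
  have hy1 : v.valuation F (y ^ 2 - 1) ≤ v.valuation F 4 := by
    have e : y ^ 2 - 1 = (c - 1) - (c - y ^ 2) := by ring
    rw [e]
    exact (Valuation.map_sub _ _ _).trans (max_le hc1 hcy.le)
  set a : F := y - 1 with ha
  have hya : y ^ 2 - 1 = a * (a + 2) := by rw [ha]; ring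
  have hav : v.valuation F a ≤ v.valuation F 2 := by
    by_contra hlt
    rw [not_le] at hlt
    have h3 : v.valuation F (a + 2) = v.valuation F a :=
      Valuation.map_add_eq_of_lt_left (v.valuation F) hlt
    rw [hya, map_mul, h3, ← pow_two, hv4] at hy1
    exact absurd hy1 (not_le.2 (pow_lt_pow_left₀ hlt zero_le' two_ne_zero))
  set t : F := a / 2 with ht
  have htv : v.valuation F t ≤ 1 := by
    rw [ht, map_div₀]
    exact div_le_one_of_le₀ hav zero_le'
  have hmain : v.valuation F (t ^ 2 + t - (x : F)) < 1 := by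
    have e : y ^ 2 - c = 4 * (t ^ 2 + t - (x : F)) := by
      have e1 : a = 2 * t := by rw [ht]; field_simp
      have e2 : y ^ 2 = 1 + a * (a + 2) := by rw [← hya]; ring
      rw [e2, e1, hc]; ring
    have e' : v.valuation F (y ^ 2 - c) < v.valuation F 4 := by
      rw [Valuation.map_sub_swap]; exact hcy
    rw [e, map_mul] at e'
    by_contra hge
    rw [not_lt] at hge
    have h5 : v.valuation F 4 * 1 ≤ v.valuation F 4 * v.valuation F (t ^ 2 + t - (x : F)) :=
      mul_le_mul_right hge _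
    rw [mul_one] at h5
    exact absurd e' (not_lt.2 h5)
  obtain ⟨t', ht'⟩ := exists_int v htv
  refine hx t' ((v.valuation_lt_one_iff_mem (K := F) _).1 ?_)
  have e : algebraMap (𝓞 F) F (t' ^ 2 + t' - x) =
      (t ^ 2 + t - (x : F)) + ((t' : F) - t) * ((t' : F) + t + 1) := by
    rw [map_sub, map_add, map_pow]
    ring
  change v.valuation F (algebraMap (𝓞 F) F (t' ^ 2 + t' - x)) < 1
  rw [e]
  have ht'v : v.valuation F (t' : F) ≤ 1 := v.valuation_le_one t'
  have h6 : v.valuation F ((t' : F) + t + 1) ≤ 1 := by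
    refine (Valuation.map_add _ _ _).trans (max_le ?_ (map_one _).le)
    exact (Valuation.map_add _ _ _).trans (max_le ht'v htv)
  refine (Valuation.map_add _ _ _).trans_lt (max_lt hmain ?_)
  rw [map_mul]
  exact mul_lt_one_of_lt_of_le ht' h6

/-- **The index** of the group of the classes which are unramified at `v`. -/
theorem index_unr (v : HeightOneSpectrum (𝓞 F)) (h2 : (2 : 𝓞 F) ∈ v.asIdeal) (k : ℕ) (hk : 1 ≤ k)
    (hk2 : v.valuation F (2 : F) = exp (-(k : ℤ))) :
    (Hv v 2 (2 * k) (by omega)).index ≠ 0 ∧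
      2 * (Hv v 2 (2 * k) (by omega)).index ≤ 4 * Ideal.absNorm v.asIdeal ^ k := by
  have hv4 : v.valuation F (4 : F) = exp (-((2 * k : ℕ) : ℤ)) := by
    have e : (4 : F) = 2 ^ 2 := by norm_num
    rw [e, map_pow, hk2, ← exp_nsmul]
    congr 1
    push_cast
    simp
  have hnot : ((2 : ℕ) : 𝓞 F) ∉ v.asIdeal ^ (k + 1) := by
    intro h
    have h1 : v.valuation F (algebraMap (𝓞 F) F ((2 : ℕ) : 𝓞 F)) ≤
        WithZero.exp (-((k + 1 : ℕ) : ℤ)) := by
      rw [HeightOneSpectrum.valuation_of_algebraMap]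
      exact (HeightOneSpectrum.intValuation_le_pow_iff_mem v _ _).2 h
    rw [map_natCast] at h1
    push_cast at h1
    rw [hk2, WithZero.exp_le_exp] at h1
    omega
  have hprim : IsPrimitiveRoot (-1 : F) 2 := IsPrimitiveRoot.neg_one 0 (by norm_num)
  have hidx := index_Hv locn (n := 2) two_pos hprim v k (2 * k + 1) (by omega) hnot
  have hle : Hv v 2 (2 * k + 1) (by omega) ≤ Hv v 2 (2 * k) (by omega) := by
    rintro x ⟨y, hy⟩
    refine ⟨y, hy.trans ?_⟩
    rw [exp_le_exp]
    push_cast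
    omega
  obtain ⟨x, hx⟩ := exists_as v h2
  have hc0 : (1 + 4 * (x : F)) ≠ 0 := by
    intro h0
    have e : (4 : F) * (x : F) = -1 := by linear_combination h0
    have h3 : v.valuation F ((4 : F) * (x : F)) = 1 := by
      rw [e, Valuation.map_neg, map_one]
    rw [map_mul, hv4] at h3
    have h4 : exp (-((2 * k : ℕ) : ℤ)) * v.valuation F (x : F) ≤ exp (-((2 * k : ℕ) : ℤ)) :=
      mul_le_of_le_one_right' (v.valuation_le_one x)
    rw [h3, ← exp_zero, exp_le_exp] at h4
    push_cast at h4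
    omega
  have hcmem : Units.mk0 _ hc0 ∈ Hv v 2 (2 * k) (by omega) := by
    refine ⟨1, ?_⟩
    rw [Units.val_mk0, Units.val_one, one_pow, div_one, add_sub_cancel_left, map_mul, hv4]
    exact mul_le_of_le_one_right' (v.valuation_le_one x)
  have hcnot : Units.mk0 _ hc0 ∉ Hv v 2 (2 * k + 1) (by omega) := by
    rintro ⟨y, hy⟩
    refine not_near v h2 hx y y.ne_zero (lt_of_le_of_lt hy ?_)
    rw [hv4, exp_lt_exp]
    push_cast
    omega
  have hmul := Subgroup.relIndex_mul_index hle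
  have hrel0 : (Hv v 2 (2 * k + 1) (by omega)).relIndex (Hv v 2 (2 * k) (by omega)) ≠ 0 := by
    intro h
    rw [h, zero_mul] at hmul
    exact hidx.1 hmul.symm
  have hrel1 : (Hv v 2 (2 * k + 1) (by omega)).relIndex (Hv v 2 (2 * k) (by omega)) ≠ 1 := by
    intro h
    rw [Subgroup.relIndex_eq_one] at h
    exact hcnot (h hcmem)
  constructor
  · intro h
    rw [h, mul_zero] at hmul
    exact hidx.1 hmul.symm
  · calc 2 * (Hv v 2 (2 * k) _).index
        ≤ (Hv v 2 (2 * k + 1) (by omega)).relIndex (Hv v 2 (2 * k) (by omega)) *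
          (Hv v 2 (2 * k) (by omega)).index := Nat.mul_le_mul_right _ (by omega)
      _ = (Hv v 2 (2 * k + 1) (by omega)).index := hmul
      _ ≤ _ := hidx.2.trans (le_of_eq (by ring))

/-- `1 + 4x` is near a norm from the field generated by the square root of a unit `a` -/
theorem solve (v : HeightOneSpectrum (𝓞 F)) (h2 : (2 : 𝓞 F) ∈ v.asIdeal) {a x : F}
    (ha : v.valuation F a = 1) (hx : v.valuation F x ≤ 1) (M : ℕ) :
    ∃ y z : F, v.valuation F ((y ^ 2 - a * z ^ 2) - (1 + 4 * x)) ≤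
      v.valuation F 4 * exp (-((M : ℤ) + 1)) := by
  -- the residue field
  obtain ⟨a0, ha0⟩ := exists_int v ha.le
  obtain ⟨x0, hx0⟩ := exists_int v hx
  have ha0n : a0 ∉ v.asIdeal := by
    intro h
    have h3 := val_lt_one v h
    have h4 : v.valuation F a < 1 := by
      have e : a = (a0 : F) - ((a0 : F) - a) := by ring
      rw [e]
      exact (Valuation.map_sub _ _ _).trans_lt (max_lt h3 ha0)
    exact absurd ha h4.ne
  obtain ⟨s, hs⟩ := exists_sq v h2 (x := x0) ha0n
  have hs1 : v.valuation F (s : F) ≤ 1 := v.valuation_le_one s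
  set r : F := x + a * (s : F) ^ 2 with hr
  have hr1 : v.valuation F r < 1 := by
    have h3 : v.valuation F (algebraMap (𝓞 F) F (a0 * s ^ 2 + x0)) < 1 := val_lt_one v hs
    have e : r = algebraMap (𝓞 F) F (a0 * s ^ 2 + x0) - (((a0 : F) - a) * (s : F) ^ 2 +
        ((x0 : F) - x)) := by
      rw [map_add, map_mul, map_pow, hr]
      ring
    rw [e]
    refine (Valuation.map_sub _ _ _).trans_lt (max_lt h3 ?_)
    refine (Valuation.map_add _ _ _).trans_lt (max_lt ?_ hx0)
    rw [map_mul, map_pow]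
    exact mul_lt_one_of_lt_of_le ha0 (pow_le_one₀ zero_le' hs1)
  have hlt : ∀ z : F, v.valuation F z < 1 → v.valuation F z ≤ exp (-1 : ℤ) := by
    intro z hz
    by_cases h0 : v.valuation F z = 0
    · rw [h0]
      exact zero_le'
    · rw [← exp_log h0] at hz ⊢
      rw [← exp_zero, exp_lt_exp] at hz
      rw [exp_le_exp]
      omega
  have hr1' := hlt r hr1
  have hit : ∀ M : ℕ, ∃ t : F, v.valuation F t ≤ exp (-1 : ℤ) ∧
      v.valuation F (t ^ 2 + t - r) ≤ exp (-((M : ℤ) + 1)) := by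
    intro M
    induction M with
    | zero =>
      refine ⟨0, ?_, ?_⟩
      · rw [map_zero]; exact zero_le'
      · have e : (0 : F) ^ 2 + 0 - r = -r := by ring
        rw [e, Valuation.map_neg]
        refine hr1'.trans (le_of_eq ?_)
        congr 1
    | succ M ih =>
      obtain ⟨t, ht, ht'⟩ := ih
      refine ⟨r - t ^ 2, ?_, ?_⟩
      · refine (Valuation.map_sub _ _ _).trans (max_le hr1' ?_)
        rw [map_pow, pow_two]
        refine (mul_le_mul' ht ht).trans ?_
        rw [← exp_add, exp_le_exp]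
        norm_num
      · have e : (r - t ^ 2) ^ 2 + (r - t ^ 2) - r =
            (t ^ 2 + t - r) * (t ^ 2 - t - r) := by ring
        rw [e, map_mul]
        have h5 : v.valuation F (t ^ 2 - t - r) ≤ exp (-1 : ℤ) := by
          refine (Valuation.map_sub _ _ _).trans (max_le ?_ hr1')
          refine (Valuation.map_sub _ _ _).trans (max_le ?_ ht)
          rw [map_pow, pow_two]
          refine (mul_le_mul' ht ht).trans ?_
          rw [← exp_add, exp_le_exp]
          norm_num
        refine (mul_le_mul' ht' h5).trans (le_of_eq ?_)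
        rw [← exp_add]
        congr 1
  obtain ⟨t, -, ht⟩ := hit M
  refine ⟨1 + 2 * t, 2 * (s : F), ?_⟩
  have e : (1 + 2 * t) ^ 2 - a * (2 * (s : F)) ^ 2 - (1 + 4 * x) = 4 * (t ^ 2 + t - r) := by
    rw [hr]
    ring
  rw [e, map_mul]
  exact mul_le_mul_right ht _

end Pool.Agent.H896.SE
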