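import Pool.Agent.H509.BT.ISO
import Pool.Agent.H509.BT.BK
import Pool.Agent.H896.SE.Loc

/-!
# The symbol at a prime ideal above two of an unramified class (helper896)
-/

set_option autoImplicit false
set_option linter.unusedSectionVars false
set_option linter.deprecated false

open NumberField IsDedekindDomain Filter Topology Module

noncomputable section

namespace Pool.Agent.H896.SE

open Pool.Agent.BT9
open Pool.Agent.Q92.AR (Dv prin Pr Ray nmD nu up sD puD Cong Pos frob IsFrobenius Unramified Ram art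
  prin_mul prin_one prin_inv)
open Pool.Agent.K3h30.RS
open Pool.Agent.K3h56.E2 (Quad Dict)
open Pool.Agent.H914.BT (up_nu up_inj actK_val)
open WithZero (exp exp_zero exp_le_exp exp_lt_exp exp_add)

variable {F H G : Type} [Field F] [NumberField F] [Field H] [NumberField H] [Algebra F H]
  [CommGroup G] [Finite G] [MulSemiringAction G H]

/-- dividing by a square to get a unit -/
theorem exists_unit_sq (v : HeightOneSpectrum (𝓞 F)) (a : Fˣ) (h : Even (prin a v)) :
    ∃ w : Fˣ, v.valuation F ((a : F) / (w : F) ^ 2) = 1 := by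
  obtain ⟨π, hπ⟩ := v.valuation_exists_uniformizer F
  have hπ0 : π ≠ 0 := by
    rintro rfl
    rw [map_zero] at hπ
    exact WithZero.exp_ne_zero hπ.symm
  obtain ⟨k, hk⟩ := h
  refine ⟨Units.mk0 π hπ0 ^ k, ?_⟩
  have h1 : v.valuation F (a : F) = exp (-(prin a v)) := Pool.Agent.Q125.AR.valuation_eq_exp a v
  rw [map_div₀, map_pow, h1, hk, Units.val_zpow_eq_zpow_val, Units.val_mk0, map_zpow₀, hπ,
    ← WithZero.exp_zsmul, ← WithZero.exp_nsmul, ← WithZero.exp_sub, ← exp_zero]
  congr 1
  simp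
  ring

/-- **the symbol of an unramified class** is trivial if the square roots in `H` have even
valuations -/
theorem symbol_one [IsGaloisGroup G F H] (D : RubinData F H G) (hG : ∀ g : G, g * g = 1)
    (Λ : Lam D) (i : Λ.ι) (w : HeightOneSpectrum (𝓞 H)) (hw : Λ.u i = Sum.inr w)
    (h2 : (2 : 𝓞 F) ∈ (w.under (𝓞 F)).asIdeal)
    (hev : ∀ (x : Fˣ) (h : Hˣ), up F H x = h ^ 2 → Even (prin x (w.under (𝓞 F))))
    (c y0 : Fˣ) (hc : (w.under (𝓞 F)).valuation F ((c : F) / (y0 : F) ^ 2 - 1) ≤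
      (w.under (𝓞 F)).valuation F 4) : Λ.L i c = 1 := by
  by_contra hne
  obtain ⟨χ, hχ⟩ := CommGroup.exists_apply_ne_one_of_hasEnoughRootsOfUnity G ℂ hne
  obtain ⟨K, _, _, _, _, τ, hD⟩ := Pool.Agent.K3h41.E2.t_DICT F H G χ
    (fun g' => by rw [← map_mul, hG, map_one]) ⟨_, hχ⟩
  have hcomm : SMulCommClass G F H := IsGaloisGroup.commutes
  have htow := hD.tower
  set v := w.under (𝓞 F) with hv
  -- the generator
  have hτ : ∃ y : K, τ y ≠ y := by
    by_contra hcon
    push Not at hcon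
    exact hD.quad.ne (AlgEquiv.ext hcon)
  obtain ⟨y, hy⟩ := hτ
  set s : K := y - τ y with hs
  have hs0 : s ≠ 0 := fun h0 => hy (sub_eq_zero.1 h0).symm
  have hτs : τ s = -s := by
    rw [hs, map_sub, Pool.Agent.K3h77.E2.tau_tau hD.quad, neg_sub]
  set h : H := algebraMap K H s with hh
  have hh0 : h ≠ 0 := (map_ne_zero _).2 hs0
  have hsq : ∀ g' : G, g' • h ^ 2 = h ^ 2 := by
    intro g'
    rw [smul_pow']
    by_cases h1 : χ g' = 1
    · rw [hh, hD.one g' h1]
    · rw [hh, hD.neg g' h1, hτs, map_neg, neg_sq]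
  have hinv : Algebra.IsInvariant F H G := IsGaloisGroup.isInvariant
  obtain ⟨a, ha⟩ := hinv.isInvariant (h ^ 2) hsq
  have ha0 : a ≠ 0 := by
    rintro rfl
    rw [map_zero] at ha
    exact hh0 (pow_eq_zero_iff two_ne_zero |>.1 ha.symm)
  have haK : algebraMap F K a = s ^ 2 := by
    apply (algebraMap K H).injective
    rw [← IsScalarTower.algebraMap_apply, ha, hh, map_pow]
  have heva : Even (prin (Units.mk0 a ha0) v) := hev _ (Units.mk0 h hh0) (by
    ext
    exact ha)
  obtain ⟨w0, hw0⟩ := exists_unit_sq v _ heva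
  rw [Units.val_mk0] at hw0
  set a' : F := a / (w0 : F) ^ 2 with ha'
  have h40 : v.valuation F (4 : F) ≠ 0 := (map_ne_zero _).2 (by norm_num)
  set x' : F := ((c : F) / (y0 : F) ^ 2 - 1) / 4 with hx'
  have hx'1 : v.valuation F x' ≤ 1 := by
    rw [hx', map_div₀]
    exact div_le_one_of_le₀ hc zero_le'
  have hx'e : 1 + 4 * x' = (c : F) / (y0 : F) ^ 2 := by
    rw [hx']
    field_simp
    ring
  have hv2 : v.valuation F (2 : F) < 1 := by
    have h3 : v.valuation F (algebraMap (𝓞 F) F 2) < 1 := val_lt_one v h2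
    rwa [map_ofNat] at h3
  have hv4 : v.valuation F (4 : F) < 1 := by
    have e : (4 : F) = 2 ^ 2 := by norm_num
    rw [e, map_pow]
    exact pow_lt_one₀ zero_le' hv2 two_ne_zero
  have hNF : (Λ.N : F) ≠ 0 := Nat.cast_ne_zero.2 Λ.N0
  set M : ℕ := (prin (Units.mk0 (Λ.N : F) hNF) v).toNat with hM
  obtain ⟨p, q, hpq⟩ := solve v h2 hw0 hx'1 M
  set n : F := p ^ 2 - a' * q ^ 2 with hn
  have one_of : ∀ z : F, v.valuation F (z - 1) < 1 → v.valuation F z = 1 := by
    intro z hz
    have h2 : v.valuation F (z - 1) < v.valuation F (1 : F) := by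
      rw [map_one]
      exact hz
    have h3 := Valuation.map_add_eq_of_lt_right (v.valuation F) h2
    rw [sub_add_cancel, map_one] at h3
    exact h3
  have hcv : v.valuation F ((c : F) / (y0 : F) ^ 2) = 1 := one_of _ (hc.trans_lt hv4)
  have hexp : exp (-((M : ℤ) + 1)) ≤ (1 : WithZero (Multiplicative ℤ)) := by
    rw [← exp_zero, exp_le_exp]
    omega
  have hpq1 : v.valuation F (n - (1 + 4 * x')) < 1 :=
    (hpq.trans (mul_le_of_le_one_right' hexp)).trans_lt hv4
  have hnv : v.valuation F n = 1 := by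
    have h7 : v.valuation F (1 + 4 * x') = 1 := by rw [hx'e]; exact hcv
    have h2 : v.valuation F (n - (1 + 4 * x')) < v.valuation F (1 + 4 * x') := by
      rw [h7]
      exact hpq1
    have h3 := Valuation.map_add_eq_of_lt_right (v.valuation F) h2
    rw [sub_add_cancel, h7] at h3
    exact h3
  have hn0 : n ≠ 0 := by
    intro h0
    rw [h0, map_zero] at hnv
    exact zero_ne_one hnv
  -- the norm
  set β : K := algebraMap F K p + algebraMap F K (q / (w0 : F)) * s with hβ
  have hτβ : τ β = algebraMap F K p - algebraMap F K (q / (w0 : F)) * s := by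
    rw [hβ, map_add, map_mul, hτs, τ.commutes, τ.commutes]
    ring
  have hββ : β * τ β = algebraMap F K n := by
    rw [hτβ, hβ, hn, ha', map_sub, map_pow, map_mul, map_pow]
    have e1 : algebraMap F K (a / (w0 : F) ^ 2) = s ^ 2 / (algebraMap F K (w0 : F)) ^ 2 := by
      rw [map_div₀, map_pow, haK]
    rw [e1, map_div₀]
    have hw00 : algebraMap F K (w0 : F) ≠ 0 := (map_ne_zero _).2 w0.ne_zero
    field_simp
    ring
  have hβ0 : β ≠ 0 := by
    intro h0
    rw [h0, zero_mul] at hββ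
    exact hn0 ((map_eq_zero _).1 hββ.symm)
  have hnu : nu F K (Units.mk0 β hβ0) = Units.mk0 n hn0 := by
    apply up_inj (K := K)
    rw [up_nu hD.quad]
    ext
    rw [Units.val_mul, actK_val, Units.val_mk0, hββ]
    rfl
  have h1 := Λ.norm K τ χ hD (Units.mk0 β hβ0) i
  rw [hnu] at h1
  -- near
  have h3 : Λ.L i (c / (y0 ^ 2 * Units.mk0 n hn0)) = 1 := by
    apply Λ.near
    rw [hw]
    change v.valuation F (((c / (y0 ^ 2 * Units.mk0 n hn0) : Fˣ) : F) - 1) ≤
      v.valuation F (Λ.N : F)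
    rw [Units.val_div_eq_div_val, Units.val_mul, Units.val_pow_eq_pow_val, Units.val_mk0]
    have e : (c : F) / ((y0 : F) ^ 2 * n) - 1 = -(n - (1 + 4 * x')) / n := by
      rw [hx'e]
      have := y0.ne_zero
      field_simp
      ring
    rw [e, map_div₀, Valuation.map_neg, hnv, div_one]
    refine hpq.trans ?_
    have h4 : v.valuation F (4 : F) * exp (-((M : ℤ) + 1)) ≤ exp (-((M : ℤ) + 1)) :=
      mul_le_of_le_one_left' hv4.le
    refine h4.trans ?_
    have h5 : v.valuation F (Λ.N : F) = exp (-(prin (Units.mk0 (Λ.N : F) hNF) v)) :=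
      Pool.Agent.Q125.AR.valuation_eq_exp (Units.mk0 (Λ.N : F) hNF) v
    rw [h5, exp_le_exp]
    have h6 : prin (Units.mk0 (Λ.N : F) hNF) v ≤ (M : ℤ) := Int.self_le_toNat _
    omega
  apply hχ
  rw [map_div, map_mul, map_pow, pow_two, hG, one_mul, div_eq_one] at h3
  rw [h3]
  exact h1

end Pool.Agent.H896.SE
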