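import Pool.Agent.H896.SE.Unr

/-!
# The quadratic extension generated by a square root (helper896)
-/

set_option autoImplicit false
set_option linter.unusedSectionVars false
set_option linter.deprecated false

open NumberField IsDedekindDomain Filter Topology Module

noncomputable section

namespace Pool.Agent.H896.SE

open Pool.Agent.Q92.AR (prin up Unramified)
open Pool.Agent.K3h30.RS
open Pool.Agent.N598.ST (Unram)
open Pool.Agent.STk (CG)

/-- `E / K` is unramified at all prime ideals and at all infinite places. -/
def UnramifiedEverywhere (K E : Type) [Field K] [NumberField K] [Field E] [NumberField E]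
    [Algebra K E] : Prop :=
  (∀ v : HeightOneSpectrum (𝓞 K), Unram K E v) ∧ ∀ w : InfinitePlace E, w.IsUnramified K

variable {K H : Type} [Field K] [NumberField K] [Field H] [NumberField H] [Algebra K H]
  [IsAbelianGalois K H]

theorem sub_unram (E : IntermediateField K H) (v : HeightOneSpectrum (𝓞 K)) (hv : Unram K H v) :
    Unram K E v := by
  intro P hP
  obtain ⟨w, v', hv', hw⟩ := (Pool.Agent.K3h25.RS.t_OVER E H P).1
  rw [Set.mem_singleton_iff] at hv'
  subst hv'
  have hwp := w.isPrime
  have hPp := v'.isPrime
  have h1 : w.asIdeal.LiesOver v'.asIdeal := ⟨hw.symm⟩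
  have h2 : w.asIdeal.LiesOver v.asIdeal := Ideal.LiesOver.trans w.asIdeal v'.asIdeal v.asIdeal
  have h3 := Ideal.ramificationIdx_tower (R := 𝓞 K) (S := 𝓞 E) (T := 𝓞 H) v'.asIdeal w.asIdeal
  rw [hv w h2] at h3
  exact Nat.dvd_one.1 (Dvd.intro _ h3.symm)

/-- an automorphism of `K(h)` which fixes `h` is trivial -/
theorem gen_fix (h : H) (σ : Gal(IntermediateField.adjoin K {h}/K))
    (hσ : σ (IntermediateField.AdjoinSimple.gen K h) = IntermediateField.AdjoinSimple.gen K h) :
    σ = 1 := by
  have hint : IsIntegral K h := Algebra.IsIntegral.isIntegral h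
  have h1 : (σ : IntermediateField.adjoin K {h} →ₐ[K] IntermediateField.adjoin K {h}) =
      AlgHom.id K _ := by
    refine (IntermediateField.adjoin.powerBasis hint).algHom_ext ?_
    rw [IntermediateField.adjoin.powerBasis_gen]
    exact hσ
  ext z
  have h2 := DFunLike.congr_fun h1 z
  exact congrArg _ h2

/-- `K(h)` is unramified at the infinite places if `h` is fixed by their decomposition groups -/
theorem inf_unram (h : H) (hinf : ∀ (w : InfinitePlace H) (γ : CG K H),
    Fixes (Sum.inl w : Place H) γ → γ • h = h) :
    ∀ w : InfinitePlace (IntermediateField.adjoin K {h}), w.IsUnramified K := by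
  set E := IntermediateField.adjoin K {h} with hE
  intro w
  have hmk : w = InfinitePlace.mk w.embedding := (InfinitePlace.mk_embedding w).symm
  rw [hmk, InfinitePlace.isUnramified_mk_iff_forall_isConj]
  intro σ hσ
  refine gen_fix h σ ?_
  set φ : E →+* ℂ := w.embedding with hφ
  set ι : H →+* ℂ := ComplexEmbedding.lift H φ with hι
  have hιφ : ∀ z : E, ι (algebraMap E H z) = φ z := fun z =>
    ComplexEmbedding.lift_algebraMap_apply H φ z
  have hσφ : ∀ z : E, (starRingEnd ℂ) (φ z) = φ (σ z) := fun z => RingHom.congr_fun hσ z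
  have hcomp : ι.comp (algebraMap K H) = (ComplexEmbedding.conjugate ι).comp (algebraMap K H) := by
    ext k
    rw [RingHom.comp_apply, RingHom.comp_apply, ComplexEmbedding.conjugate_coe_eq,
      IsScalarTower.algebraMap_apply K E H, hιφ, hσφ, AlgEquiv.commutes]
  obtain ⟨τ, hτ⟩ := ComplexEmbedding.exists_comp_symm_eq_of_comp_eq ι _ hcomp
  have hγ : ∀ z : H, ι (τ.symm z) = (starRingEnd ℂ) (ι z) := fun z => RingHom.congr_fun hτ z
  have hfix := Pool.Agent.H509.Rec.fixes_of_conj (F := K) (K := K) (H := H) (G := CG K H) hγ
  have h1 := hinf _ _ hfix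
  rw [Pool.Agent.H509.Rec.eK_smul] at h1
  have h2 := hγ h
  rw [h1] at h2
  have h3 : ι h = φ (IntermediateField.AdjoinSimple.gen K h) := by
    rw [← hιφ]
    rfl
  apply φ.injective
  rw [← hσφ, ← h3]
  exact h2.symm

/-- the degree -/
theorem finrank_two (x : K) (h : H) (hx : algebraMap K H x = h ^ 2) (g : CG K H) (hg : g • h ≠ h) :
    Module.finrank K (IntermediateField.adjoin K {h}) = 2 := by
  have hint : IsIntegral K h := Algebra.IsIntegral.isIntegral h
  rw [IntermediateField.adjoin.finrank hint]
  refine le_antisymm ?_ ?_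
  · have h1 : minpoly K h ∣ (Polynomial.X ^ 2 - Polynomial.C x) := by
      apply minpoly.dvd
      simp [hx]
    have h2 : (Polynomial.X ^ 2 - Polynomial.C x : Polynomial K) ≠ 0 :=
      Polynomial.X_pow_sub_C_ne_zero two_pos x
    exact (Polynomial.natDegree_le_of_dvd h1 h2).trans
      (le_of_eq (Polynomial.natDegree_X_pow_sub_C))
  · rw [minpoly.two_le_natDegree_iff hint]
    rintro ⟨k, hk⟩
    apply hg
    have h1 : g • algebraMap K H k = algebraMap K H k := by
      have hcomm : SMulCommClass (CG K H) K H := IsGaloisGroup.commutes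
      rw [Algebra.algebraMap_eq_smul_one, smul_comm, smul_one]
    rw [← hk]
    exact h1

/-- square roots of elements which are near squares everywhere, in a field without unramified
quadratic subextensions -/
theorem fix_of_no_unram
    (hE : ∀ E : IntermediateField K H, Module.finrank K E = 2 → ¬ UnramifiedEverywhere K E)
    (x : Kˣ) (h : Hˣ) (hx : up K H x = h ^ 2)
    (hfin : ∀ v : HeightOneSpectrum (𝓞 K), ¬ Unram K H v → NearSq v x)
    (hinf : ∀ (w : InfinitePlace H) (γ : CG K H),
      Fixes (Sum.inl w : Place H) γ → γ • (h : H) = h) (g : CG K H) : g • (h : H) = h := by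
  by_contra hg
  have hx' : algebraMap K H (x : K) = (h : H) ^ 2 := congrArg Units.val hx
  refine hE (IntermediateField.adjoin K {(h : H)}) (finrank_two (x : K) (h : H) hx' g hg) ⟨?_, ?_⟩
  · intro v
    by_cases hv : Unram K H v
    · exact sub_unram _ v hv
    · refine unram_of_nearSq (G := CG K (IntermediateField.adjoin K {(h : H)})) v x
        (IntermediateField.AdjoinSimple.gen K (h : H)) ?_ ?_ (hfin v hv)
      · apply (algebraMap (IntermediateField.adjoin K {(h : H)}) H).injective
        rw [← IsScalarTower.algebraMap_apply, hx', map_pow]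
        rfl
      · intro γ hγ
        exact gen_fix (h : H) γ hγ
  · exact inf_unram (h : H) hinf

end Pool.Agent.H896.SE
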