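import Pool.Agent.H509.BT.Fin2
import Pool.Agent.H896.SE.Iso

/-!
# The condition on the primes above two, improved (helper896)
-/

set_option autoImplicit false
set_option linter.unusedSectionVars false
set_option linter.deprecated false

open NumberField IsDedekindDomain Filter Topology Module

noncomputable section

namespace Pool.Agent.H896.SE

open Pool.Agent.BT9
open Pool.Agent.Q92.AR (Dv prin Pr Ray nmD nu up sD puD Cong Pos frob IsFrobenius Unramified Ram art
  prin_mul prin_one prin_inv)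
open Pool.Agent.K3h30.RS
open Pool.Agent.K3h73.E2 (Below exists_below exists_over below_unique conj_of_below below_of_conj)
open Pool.Agent.H627.BT (cF cF' dF nrm_pos dF_pos e2_zero lb_eq exists_cc)

variable {F H G : Type} [Field F] [NumberField F] [Field H] [NumberField H] [Algebra F H]
  [CommGroup G] [Finite G] [MulSemiringAction G H]

/-- the count (the proof of `Pool.Agent.H627.BT.wild`, with the improved bound) -/
theorem wild2 [IsGaloisGroup G F H] (D : RubinData F H G) (hexp : ∀ g : G, g * g = 1) (Λ : Lam D)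
    (hiso : 2 * Nat.card (Sg D) ^ 2 ≤ (letI := Λ.fin; ∏ i, lb F (Λ.u i)))
    (W : Finset (HeightOneSpectrum (𝓞 F)))
    (hW : ∀ v : HeightOneSpectrum (𝓞 F), (2 : 𝓞 F) ∈ v.asIdeal →
      ¬ Squarefree (v.asIdeal.map (algebraMap (𝓞 F) (𝓞 H))) → v ∈ W)
    (hsum : ∑ v ∈ W, deg2 v ≤ 2 + Nat.card (RC F H)) : Nat.card (Sg D) ≤ 2 ^ sc D := by
  classical
  let _ := Λ.fin
  have hb : ∀ i, ∃ p : InfinitePlace F ⊕ HeightOneSpectrum (𝓞 F), Below p (Λ.u i) :=
    fun i => exists_below (Λ.u i)
  choose p hp using hb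
  have hpinj : Function.Injective p := by
    intro i i' h
    have h3 := hp i'
    rw [← h] at h3
    exact Λ.inj i i' (conj_of_below (hp i) h3)
  have hprod : 2 * Nat.card (Sg D) ^ 2 ≤ (∏ i, cF F (p i)) * ∏ i, dF F H (p i) := by
    rw [← Finset.prod_mul_distrib]
    refine hiso.trans (le_of_eq ?_)
    exact Finset.prod_congr rfl fun i _ => lb_eq (hp i)
  -- the wild part
  have hd : ∏ i, dF F H (p i) ≤ 2 ^ (2 + Nat.card (RC F H)) := by
    have e1 : ∏ i, dF F H (p i) = ∏ q ∈ Finset.univ.image p, dF F H q :=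
      (Finset.prod_image fun i _ i' _ h => hpinj h).symm
    have e2' : ∏ q ∈ Finset.univ.image p, dF F H q =
        ∏ q ∈ (Finset.univ.image p).filter (fun q => dF F H q ≠ 1), dF F H q :=
      (Finset.prod_filter_ne_one _).symm
    let W' := W.filter fun v => (2 : 𝓞 F) ∈ v.asIdeal
    have hsub : (Finset.univ.image p).filter (fun q => dF F H q ≠ 1) ⊆
        W'.image (Sum.inr : HeightOneSpectrum (𝓞 F) → InfinitePlace F ⊕ HeightOneSpectrum (𝓞 F)) := by
      intro q hq
      have hq2 := (Finset.mem_filter.1 hq).2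
      rcases q with v | v
      · exact absurd rfl hq2
      · have h3 : ¬ Unramified H v := fun h => hq2 (if_pos h)
        have h4 : dF F H (Sum.inr v) = Ideal.absNorm v.asIdeal ^ e2 v := if_neg h3
        have h5 : (2 : 𝓞 F) ∈ v.asIdeal := by
          by_contra h6
          rw [h4, e2_zero h6, pow_zero] at hq2
          exact hq2 rfl
        refine Finset.mem_image.2 ⟨v, Finset.mem_filter.2 ⟨hW v h5 fun h6 => h3 ?_, h5⟩, rfl⟩
        exact Pool.Agent.H509.Rec.unr_of_squarefree h6
    rw [e1, e2']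
    calc ∏ q ∈ (Finset.univ.image p).filter (fun q => dF F H q ≠ 1), dF F H q
        ≤ ∏ q ∈ W'.image Sum.inr, dF F H q :=
          Finset.prod_le_prod_of_subset_of_one_le' hsub fun q _ _ => dF_pos q
      _ = ∏ v ∈ W', dF F H (Sum.inr v) := Finset.prod_image fun a _ b _ h => Sum.inr_injective h
      _ ≤ ∏ v ∈ W', 2 ^ deg2 v := by
          refine Finset.prod_le_prod' fun v hv => ?_
          rw [← Pool.Agent.H161.BT.n2 F v (Finset.mem_filter.1 hv).2]
          show (if Unramified H v then 1 else Ideal.absNorm v.asIdeal ^ e2 v) ≤ _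
          split_ifs
          · exact nrm_pos v
          · exact le_refl _
      _ = 2 ^ (∑ v ∈ W', deg2 v) := Finset.prod_pow_eq_pow_sum _ _ _
      _ ≤ 2 ^ (2 + Nat.card (RC F H)) := by
          refine Nat.pow_le_pow_right (by norm_num) (le_trans ?_ hsum)
          exact Finset.sum_le_sum_of_subset (Finset.filter_subset _ _)
  -- the archimedean part
  have hRC : 2 ^ Nat.card (RC F H) ≤ ∏ i, cF' F (p i) := by
    have h3 : ∀ v : RC F H, ∃ i, p i = Sum.inl v.1 := by
      intro v
      obtain ⟨w, γ, hw, hf, hγ⟩ := exists_cc (G := G) v.1 v.2.1 v.2.2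
      have h4 : ∀ j, ¬ Conj G (Sum.inl w : Place H) (D.w j) := fun j hj =>
        hγ (D.splits j γ (Pool.Agent.H509.E3.fixes_conj hj hf))
      obtain ⟨i, hi⟩ := Λ.all (Sum.inl w) trivial h4
      exact ⟨i, (below_of_conj (p := Sum.inl v.1) (w := Sum.inl w) hw (hp i) hi).symm⟩
    choose k hk using h3
    have hkinj : Function.Injective k := by
      intro v v' h
      have h4 := hk v
      rw [h, hk v'] at h4
      exact (Subtype.ext (Sum.inl_injective h4)).symm
    have hfin : Finite (RC F H) := Finite.of_injective k hkinj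
    let _ := Fintype.ofFinite (RC F H)
    have h4 : ∏ i ∈ Finset.univ.image k, cF' F (p i) = 2 ^ Nat.card (RC F H) := by
      rw [Finset.prod_image fun a _ b _ h => hkinj h]
      have h5 : ∀ v : RC F H, cF' F (p (k v)) = 2 := fun v => by rw [hk v]; rfl
      rw [Finset.prod_congr rfl fun v _ => h5 v, Finset.prod_const, Finset.card_univ,
        Nat.card_eq_fintype_card]
    rw [← h4]
    refine Finset.prod_le_prod_of_subset_of_one_le' (Finset.subset_univ _) fun i _ _ => ?_
    rcases p i with v | v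
    · exact one_le_two
    · exact le_refl 1
  have hcc : (∏ i, cF F (p i)) * ∏ i, cF' F (p i) = 4 ^ Nat.card Λ.ι := by
    rw [← Finset.prod_mul_distrib]
    have h3 : ∀ i, cF F (p i) * cF' F (p i) = 4 := by
      intro i
      rcases p i with v | v
      · rfl
      · rfl
    rw [Finset.prod_congr rfl fun i _ => h3 i, Finset.prod_const, Finset.card_univ,
      Nat.card_eq_fintype_card]
  have hsc : sc D = Nat.card Λ.ι := by
    have := Λ.card
    unfold sc
    omega
  have hfinal : 2 * Nat.card (Sg D) ^ 2 ≤ 4 * 4 ^ Nat.card Λ.ι := by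
    calc 2 * Nat.card (Sg D) ^ 2 ≤ (∏ i, cF F (p i)) * ∏ i, dF F H (p i) := hprod
      _ ≤ (∏ i, cF F (p i)) * 2 ^ (2 + Nat.card (RC F H)) := Nat.mul_le_mul_left _ hd
      _ = 4 * ((∏ i, cF F (p i)) * 2 ^ Nat.card (RC F H)) := by rw [pow_add]; ring
      _ ≤ 4 * ((∏ i, cF F (p i)) * ∏ i, cF' F (p i)) :=
          Nat.mul_le_mul_left _ (Nat.mul_le_mul_left _ hRC)
      _ = 4 * 4 ^ Nat.card Λ.ι := by rw [hcc]
  -- power of two
  have : Fact (Nat.Prime 2) := ⟨Nat.prime_two⟩
  obtain ⟨m, hm⟩ := (IsPGroup.iff_card (p := 2) (G := Sg D)).1 fun g => ⟨1, by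
      rw [pow_one, pow_two]
      exact Subtype.ext (hexp g)⟩
  rw [hsc, hm]
  rw [hm] at hfinal
  refine Nat.pow_le_pow_right (by norm_num) ?_
  have h3 : 2 * (2 ^ m) ^ 2 = 2 ^ (2 * m + 1) := by rw [← pow_mul, pow_succ]; ring
  have h4 : 4 * 4 ^ Nat.card Λ.ι = 2 ^ (2 * Nat.card Λ.ι + 2) := by
    rw [show (4 : ℕ) = 2 ^ 2 from rfl, ← pow_mul, pow_add]
    ring
  rw [h3, h4] at hfinal
  have h5 := (Nat.pow_le_pow_iff_right (by norm_num : 1 < 2)).1 hfinal
  omega

end Pool.Agent.H896.SE
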