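import Pool.Agent.H509.ST.Main
import Pool.Agent.H896.SE.Wild

/-!
# Unramified quadratic extensions (helper896)
-/

set_option autoImplicit false
set_option linter.unusedSectionVars false
set_option linter.deprecated false

open NumberField IsDedekindDomain Filter Topology Module

noncomputable section

namespace Pool.Agent.H896.SE

open Pool.Agent.Q92.AR (prin up Unramified)
open Pool.Agent.K3h30.RS
open Pool.Agent.N598.ST (Unram)

section
variable {K E G : Type} [Field K] [NumberField K] [Field E] [NumberField E] [Algebra K E]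
  [CommGroup G] [Finite G] [MulSemiringAction G E] [IsGaloisGroup G K E]

/-- the elements of the inertia groups fix `h` if `h² = y² (1 + 4 x')` -/
theorem inertia_fix (P : HeightOneSpectrum (𝓞 E)) (x : Kˣ) (h : E)
    (hx : algebraMap K E (x : K) = h ^ 2) (hn : NearSq (P.under (𝓞 K)) x) (γ : G)
    (hγ : γ ∈ P.asIdeal.inertia G) : γ • h = h := by
  have hcomm : SMulCommClass G K E := IsGaloisGroup.commutes
  rcases Pool.Agent.H788.BT.smul_root hx γ with h1 | h1
  · exact h1
  exfalso
  have hin : ∀ z : 𝓞 E, γ • z - z ∈ P.asIdeal := fun z => hγ z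
  have hmem : ∀ z : 𝓞 E, z ∈ P.asIdeal ↔ γ • z ∈ P.asIdeal := by
    intro z
    constructor
    · intro hz
      have := P.asIdeal.add_mem (hin z) hz
      rwa [sub_add_cancel] at this
    · intro hz
      have := P.asIdeal.sub_mem hz (hin z)
      rwa [sub_sub_cancel] at this
  have hval : ∀ z : E, P.valuation E (γ • z) = P.valuation E z := fun z =>
    (Pool.Agent.K3h25.RS.val_aut P P γ hmem z).symm
  have hF : ∀ a : K, γ • algebraMap K E a = algebraMap K E a := by
    intro a
    rw [Algebra.algebraMap_eq_smul_one, smul_comm, smul_one]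
  obtain ⟨y, hy4, hy1⟩ := hn
  have hov : Pool.Agent.TeamU.Over P (P.under (𝓞 K)) := rfl
  have hne : ((P.under (𝓞 K)).asIdeal.ramificationIdx' P.asIdeal) ≠ 0 := by
    have hlo : P.asIdeal.LiesOver (P.under (𝓞 K)).asIdeal := ⟨rfl⟩
    have hwm := P.isMaximal
    exact Ideal.IsDedekindDomain.ramificationIdx'_ne_zero_of_liesOver P.asIdeal
      (P.under (𝓞 K)).ne_bot
  set b : E := algebraMap K E (y : K) with hb
  have hb0 : b ≠ 0 := by
    rw [hb]
    exact (map_ne_zero _).2 y.ne_zero
  set s : E := h / b with hs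
  have hγs : γ • s = -s := by
    rw [hs, smul_div₀', h1, hF, neg_div]
  have h2 : algebraMap K E ((x : K) / (y : K) ^ 2 - 1) = s ^ 2 - 1 := by
    rw [map_sub, map_div₀, map_pow, hx, map_one, hs, div_pow]
  have h4E : algebraMap K E 4 = 4 := map_ofNat (algebraMap K E) 4
  have hs4 : P.valuation E (s ^ 2 - 1) ≤ P.valuation E 4 := by
    rw [← h2, ← h4E, Pool.Agent.TeamU.val_over hov, Pool.Agent.TeamU.val_over hov]
    exact pow_le_pow_left₀ zero_le' hy4 _
  have hs1 : P.valuation E (s ^ 2 - 1) < 1 := by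
    rw [← h2, Pool.Agent.TeamU.val_over hov]
    exact pow_lt_one₀ zero_le' hy1 hne
  have hsv : P.valuation E s = 1 := by
    have h3 : P.valuation E (s ^ 2 - 1) < P.valuation E (1 : E) := by
      rw [map_one]
      exact hs1
    have h4 := Valuation.map_add_eq_of_lt_right (P.valuation E) h3
    rw [sub_add_cancel, map_one, map_pow] at h4
    exact (pow_eq_one_iff_of_nonneg zero_le' two_ne_zero).1 h4
  set θ : E := (s - 1) / 2 with hθ
  have hθ2 : θ ^ 2 + θ = (s ^ 2 - 1) / 4 := by
    rw [hθ]
    field_simp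
    ring
  have hθ2v : P.valuation E (θ ^ 2 + θ) ≤ 1 := by
    rw [hθ2, map_div₀]
    exact div_le_one_of_le₀ hs4 zero_le'
  have hθv : P.valuation E θ ≤ 1 := by
    by_contra hlt
    rw [not_le] at hlt
    have h5 : P.valuation E θ < P.valuation E (θ ^ 2) := by
      rw [map_pow, pow_two]
      exact lt_mul_of_one_lt_right (zero_lt_one.trans hlt) hlt
    have h6 := Valuation.map_add_eq_of_lt_left (P.valuation E) h5
    rw [h6, map_pow] at hθ2v
    exact absurd hθ2v (not_le.2 (one_lt_pow₀ hlt two_ne_zero))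
  obtain ⟨a, ha⟩ := exists_int P hθv
  have h7 : P.valuation E (γ • θ - θ) < 1 := by
    have e : γ • θ - θ = γ • (θ - (a : E)) + ((γ • (a : E) - (a : E)) + ((a : E) - θ)) := by
      rw [smul_sub]
      ring
    rw [e]
    refine (Valuation.map_add _ _ _).trans_lt (max_lt ?_ ?_)
    · rw [hval, Valuation.map_sub_swap]
      exact ha
    · refine (Valuation.map_add _ _ _).trans_lt (max_lt ?_ ha)
      exact (P.valuation_lt_one_iff_mem (K := E) (γ • a - a)).2 (hin a)
  have h8 : γ • θ - θ = -s := by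
    have e : γ • θ = (-s - 1) / 2 := by
      have e2 : γ • (2 : E) = 2 := by
        have := hF 2
        rwa [map_ofNat] at this
      rw [hθ, smul_div₀', smul_sub, hγs, smul_one, e2]
    rw [e, hθ]
    ring
  rw [h8, Valuation.map_neg, hsv] at h7
  exact lt_irrefl _ h7

/-- `E = K(h)` is unramified at `v` -/
theorem unram_of_nearSq (v : HeightOneSpectrum (𝓞 K)) (x : Kˣ) (h : E)
    (hx : algebraMap K E (x : K) = h ^ 2) (hgen : ∀ γ : G, γ • h = h → γ = 1)
    (hn : NearSq v x) : Unram K E v := by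
  intro P hP
  have hPp := P.isPrime
  have hvp := v.isPrime
  have hPv : P.under (𝓞 K) = v := HeightOneSpectrum.ext hP.over.symm
  have hbot : P.asIdeal.inertia G = ⊥ := by
    rw [eq_bot_iff]
    intro γ hγ
    rw [Subgroup.mem_bot]
    refine hgen γ (inertia_fix P x h hx ?_ γ hγ)
    rw [hPv]
    exact hn
  have h1 := Ideal.card_inertia_eq_ramificationIdxIn (G := G) v.asIdeal P.asIdeal
  rw [hbot, Subgroup.card_bot,
    Ideal.ramificationIdxIn_eq_ramificationIdx v.asIdeal P.asIdeal G] at h1
  exact h1.symm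

/-- elements of the inertia group are in the decomposition group -/
theorem fixes_of_inertia {w : HeightOneSpectrum (𝓞 E)} {γ : G}
    (hγ : γ ∈ w.asIdeal.inertia G) : Fixes (Sum.inr w : Place E) γ := by
  have hin : ∀ z : 𝓞 E, γ • z - z ∈ w.asIdeal := fun z => hγ z
  have hmem : ∀ z : 𝓞 E, z ∈ w.asIdeal ↔ γ • z ∈ w.asIdeal := by
    intro z
    constructor
    · intro hz
      have := w.asIdeal.add_mem (hin z) hz
      rwa [sub_add_cancel] at this
    · intro hz
      have := w.asIdeal.sub_mem hz (hin z)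
      rwa [sub_sub_cancel] at this
  intro z
  have h1 : w.valuation E z = w.valuation E (γ • z) :=
    Pool.Agent.K3h25.RS.val_aut w w γ hmem z
  change HeightOneSpectrum.adicAbv E w (γ • z) = HeightOneSpectrum.adicAbv E w z
  rw [HeightOneSpectrum.adicAbv_def, HeightOneSpectrum.adicAbv_def, h1]

/-- trivial decomposition groups -/
theorem unramified_of_splits {w : HeightOneSpectrum (𝓞 E)}
    (h : ∀ γ : G, Fixes (Sum.inr w : Place E) γ → γ = 1) :
    Unramified E (w.under (𝓞 K)) := by
  have hwp := w.isPrime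
  have hlo : w.asIdeal.LiesOver (w.under (𝓞 K)).asIdeal := ⟨rfl⟩
  have hvp := (w.under (𝓞 K)).isPrime
  have hbot : w.asIdeal.inertia G = ⊥ := by
    rw [eq_bot_iff]
    intro γ hγ
    rw [Subgroup.mem_bot]
    exact h γ (fixes_of_inertia hγ)
  have h1 := Ideal.card_inertia_eq_ramificationIdxIn (G := G) (w.under (𝓞 K)).asIdeal w.asIdeal
  rw [hbot, Subgroup.card_bot] at h1
  intro P hP hle
  have hPp := P.isPrime
  have hPl : P.asIdeal.LiesOver (w.under (𝓞 K)).asIdeal := ⟨by rw [← hP]; rfl⟩
  rw [Ideal.ramificationIdxIn_eq_ramificationIdx (w.under (𝓞 K)).asIdeal P.asIdeal G] at h1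
  exact (Pool.Agent.H588.ST.ram_iff K E _ P hPl).1 h1.symm (Ideal.dvd_iff_le.2 hle)

end

end Pool.Agent.H896.SE
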